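import Pool.Agent.Helper39.ANG.Defs
import Pool.Agent.Helper5.TV.IdealVol

/-! # The volume over a kite -/

set_option autoImplicit false

namespace ANG
open MeasureTheory Set Pool.Agent.Helper39.VC
open Pool.Agent.Helper5.TV (lob ls ls_shift_int integral_ls lob_pi_sub lob_dup lob_pi_div_two lob_zero
  lint_eq inner_z inner_y)

/-- one half of a kite: the part over the triangle with the vertices `0` and `R exp(± i t)` -/
def half3 (R t : ℝ) : Set (ℝ × ℝ × ℝ) :=
  {p | p.1 < R * Real.cos t ∧ Real.cos t * |p.2.1| < Real.sin t * p.1 ∧ 0 < p.2.2 ∧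
    R^2 < p.1^2 + p.2.1^2 + p.2.2^2}

theorem half3_meas (R t : ℝ) : MeasurableSet (half3 R t) := by
  apply IsOpen.measurableSet
  have h1 : IsOpen {p : ℝ × ℝ × ℝ | p.1 < R * Real.cos t} := isOpen_lt continuous_fst continuous_const
  have h2 : IsOpen {p : ℝ × ℝ × ℝ | Real.cos t * |p.2.1| < Real.sin t * p.1} :=
    isOpen_lt (by fun_prop) (by fun_prop)
  have h3 : IsOpen {p : ℝ × ℝ × ℝ | 0 < p.2.2} := isOpen_lt continuous_const (by fun_prop)
  have h4 : IsOpen {p : ℝ × ℝ × ℝ | R^2 < p.1^2 + p.2.1^2 + p.2.2^2} :=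
    isOpen_lt continuous_const (by fun_prop)
  exact h1.inter (h2.inter (h3.inter h4))

theorem kite_meas (r ρ : ℝ) : MeasurableSet (kite r ρ) := by
  apply IsOpen.measurableSet
  have h1 : IsOpen {p : ℝ × ℝ × ℝ | r * |p.2.1| < ρ * p.1} := isOpen_lt (by fun_prop) (by fun_prop)
  have h2 : IsOpen {p : ℝ × ℝ × ℝ | ρ * |p.2.1| < r * (Real.sqrt (r^2 + ρ^2) - p.1)} :=
    isOpen_lt (by fun_prop) (by fun_prop)
  have h3 : IsOpen {p : ℝ × ℝ × ℝ | 0 < p.2.2} := isOpen_lt continuous_const (by fun_prop)
  have h4 : IsOpen {p : ℝ × ℝ × ℝ | r^2 < p.1^2 + p.2.1^2 + p.2.2^2} :=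
    isOpen_lt continuous_const (by fun_prop)
  have h5 : IsOpen {p : ℝ × ℝ × ℝ | ρ^2 < (p.1 - Real.sqrt (r^2 + ρ^2))^2 + p.2.1^2 + p.2.2^2} :=
    isOpen_lt continuous_const (by fun_prop)
  exact h1.inter (h2.inter (h3.inter (h4.inter h5)))

theorem img_cosR {R t : ℝ} (hR : 0 < R) (h0 : 0 < t) (h1 : t < Real.pi/2) :
    (fun u : ℝ => R * Real.cos u) '' Ioo t (Real.pi/2) = Ioo 0 (R * Real.cos t) := by
  have hpi := Real.pi_pos
  ext x
  simp only [mem_image, mem_Ioo]
  constructor
  · rintro ⟨u, ⟨g0, g1⟩, rfl⟩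
    constructor
    · exact mul_pos hR (Real.cos_pos_of_mem_Ioo ⟨by linarith, g1⟩)
    · exact mul_lt_mul_of_pos_left
        (Real.cos_lt_cos_of_nonneg_of_le_pi (by linarith) (by linarith) g0) hR
  · rintro ⟨g0, g1⟩
    have h2 : 0 < x / R := div_pos g0 hR
    have h3 : x / R < Real.cos t := by rw [div_lt_iff₀ hR]; linarith
    have h4 := Real.cos_le_one t
    refine ⟨Real.arccos (x/R), ⟨?_, ?_⟩, ?_⟩
    · have h5 : Real.arccos (Real.cos t) < Real.arccos (x/R) :=
        Real.arccos_lt_arccos (by linarith) h3 h4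
      rwa [Real.arccos_cos (by linarith) (by linarith)] at h5
    · exact Real.arccos_lt_pi_div_two.2 h2
    · rw [Real.cos_arccos (by linarith) (by linarith)]
      field_simp

theorem last_half {t : ℝ} :
    ∫ u in t..(Real.pi/2), (1/2) * (ls (u + t) - ls (u + -t)) = lob t := by
  rw [intervalIntegral.integral_const_mul,
    intervalIntegral.integral_sub (ls_shift_int _ _ _) (ls_shift_int _ _ _),
    intervalIntegral.integral_comp_add_right (fun u => ls u),
    intervalIntegral.integral_comp_add_right (fun u => ls u), integral_ls, integral_ls]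
  have e1 : t + t = 2 * t := by ring
  have e2 : t + -t = 0 := by ring
  have e3 : lob (Real.pi/2 + t) = - lob (Real.pi/2 + -t) := by
    rw [show Real.pi/2 + t = Real.pi - (Real.pi/2 + -t) by ring, lob_pi_sub]
  have e4 : lob (t + Real.pi/2) = - lob (Real.pi/2 + -t) := by
    rw [add_comm]; exact e3
  rw [e1, e2, lob_zero, lob_dup, lob_pi_div_two, e4, e3]
  ring

theorem half_nonneg {t u : ℝ} (h0 : 0 < t) (g0 : t < u) (g1 : u < Real.pi/2) :
    0 ≤ (1/2) * (ls (u + t) - ls (u + -t)) := by
  have hpi := Real.pi_pos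
  have s4 : 0 < Real.sin (u + -t) := Real.sin_pos_of_pos_of_lt_pi (by linarith) (by linarith)
  have c1 : 0 < Real.cos u := Real.cos_pos_of_mem_Ioo ⟨by linarith, g1⟩
  have s1 : 0 < Real.sin t := Real.sin_pos_of_pos_of_lt_pi h0 (by linarith)
  have : ls (u + -t) ≤ ls (u + t) := by
    unfold ls
    apply Real.log_le_log (by positivity)
    rw [Real.sin_add, Real.sin_add, Real.cos_neg, Real.sin_neg]
    nlinarith [mul_pos c1 s1]
  linarith

theorem lob_nonneg' {t : ℝ} (h0 : 0 < t) (h1 : t < Real.pi/2) : 0 ≤ lob t := by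
  rw [← last_half]
  apply intervalIntegral.integral_nonneg_of_ae_restrict h1.le
  rw [← Measure.restrict_congr_set Ioo_ae_eq_Icc]
  refine (ae_restrict_mem measurableSet_Ioo).mono fun u hu => ?_
  exact half_nonneg h0 hu.1 hu.2

theorem outer_half {R t : ℝ} (hR : 0 < R) (h0 : 0 < t) (h1 : t < Real.pi/2) :
    ∫⁻ x in Ioo (0 : ℝ) (R * Real.cos t), ENNReal.ofReal ((1/(2*Real.sqrt (R^2-x^2))) *
      Real.log ((Real.sqrt (R^2-x^2) + Real.sin t * x / Real.cos t)/
        (Real.sqrt (R^2-x^2) - Real.sin t * x / Real.cos t)))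
      = ENNReal.ofReal (lob t) := by
  have hpi := Real.pi_pos
  have ct : 0 < Real.cos t := Real.cos_pos_of_mem_Ioo ⟨by linarith, h1⟩
  rw [← img_cosR hR h0 h1, lintegral_image_eq_lintegral_abs_deriv_mul measurableSet_Ioo
    (f' := fun u => R * (-Real.sin u))]
  · rw [← last_half, ← lint_eq h1.le]
    · apply setLIntegral_congr_fun measurableSet_Ioo
      intro u hu
      obtain ⟨g0, g1⟩ := hu
      have s1 : 0 < Real.sin u := Real.sin_pos_of_pos_of_lt_pi (by linarith) (by linarith)
      have s3 : 0 < Real.sin (u + t) := Real.sin_pos_of_pos_of_lt_pi (by linarith) (by linarith)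
      have s4 : 0 < Real.sin (u + -t) := Real.sin_pos_of_pos_of_lt_pi (by linarith) (by linarith)
      have ha : Real.sqrt (R^2 - (R * Real.cos u)^2) = R * Real.sin u := by
        rw [show R^2 - (R * Real.cos u)^2 = (R * Real.sin u)^2 by
          rw [mul_pow, mul_pow, Real.sin_sq]; ring]
        exact Real.sqrt_sq (by positivity)
      simp only
      rw [ha]
      have e1 : R * Real.sin u + Real.sin t * (R * Real.cos u) / Real.cos t
          = (R / Real.cos t) * Real.sin (u + t) := by
        rw [Real.sin_add]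
        field_simp
      have e2 : R * Real.sin u - Real.sin t * (R * Real.cos u) / Real.cos t
          = (R / Real.cos t) * Real.sin (u + -t) := by
        rw [Real.sin_add, Real.sin_neg, Real.cos_neg]
        field_simp
        ring
      rw [e1, e2, mul_div_mul_left _ _ (by positivity)]
      rw [← ENNReal.ofReal_mul (abs_nonneg _)]
      congr 1
      have e3 : |R * (-Real.sin u)| = R * Real.sin u := by
        rw [abs_mul, abs_neg, abs_of_pos s1, abs_of_pos hR]
      rw [e3]
      have e4 : Real.log (Real.sin (u + t) / Real.sin (u + -t)) = ls (u + t) - ls (u + -t) := by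
        unfold ls
        rw [← Real.log_div (by positivity) (by positivity), mul_div_mul_left _ _ two_ne_zero]
      rw [e4]
      field_simp
    · exact ((ls_shift_int _ _ _).sub (ls_shift_int _ _ _)).const_mul _
    · intro u hu
      exact half_nonneg h0 hu.1 hu.2
  · intro u _
    exact ((Real.hasDerivAt_cos u).const_mul R).hasDerivWithinAt
  · intro u hu v hv h
    have h2 : Real.cos u = Real.cos v := mul_left_cancel₀ hR.ne' h
    exact Real.injOn_cos ⟨by linarith [hu.1], by linarith [hu.2]⟩
      ⟨by linarith [hv.1], by linarith [hv.2]⟩ h2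

/-- the slices of the half kite -/
noncomputable def Wh (R t x : ℝ) : ENNReal := ∫⁻ y : ℝ, ∫⁻ z : ℝ,
  (half3 R t).indicator (fun p : ℝ × ℝ × ℝ => ENNReal.ofReal (1 / p.2.2^3)) (x, y, z)

theorem lintegral_Wh {R t : ℝ} (hR : 0 < R) (h0 : 0 < t) (h1 : t < Real.pi/2) :
    ∫⁻ x, Wh R t x = ENNReal.ofReal (lob t) := by
  have hpi := Real.pi_pos
  have ct : 0 < Real.cos t := Real.cos_pos_of_mem_Ioo ⟨by linarith, h1⟩
  have st : 0 < Real.sin t := Real.sin_pos_of_pos_of_lt_pi h0 (by linarith)
  have sc := Real.sin_sq_add_cos_sq t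
  rw [← outer_half hR h0 h1, ← lintegral_indicator measurableSet_Ioo]
  congr 1
  funext x
  unfold Wh
  by_cases hx : x ∈ Ioo (0 : ℝ) (R * Real.cos t)
  · rw [indicator_of_mem hx]
    obtain ⟨hx0, hx1⟩ := hx
    have hx2' : x^2 < R^2 * Real.cos t ^ 2 := by
      have := pow_lt_pow_left₀ hx1 hx0.le (two_ne_zero)
      rwa [mul_pow] at this
    have hx2 : 0 < R^2 - x^2 := by nlinarith [sq_nonneg (R * Real.sin t)]
    have hb : 0 < Real.sin t * x / Real.cos t := by positivity
    have hab : Real.sin t * x / Real.cos t < Real.sqrt (R^2-x^2) := by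
      rw [Real.lt_sqrt hb.le, div_pow, div_lt_iff₀ (by positivity), mul_pow]
      nlinarith
    rw [← inner_y hb hab, ← lintegral_indicator measurableSet_Ioo]
    congr 1
    funext y
    by_cases hy : y ∈ Ioo (-(Real.sin t * x / Real.cos t)) (Real.sin t * x / Real.cos t)
    · rw [indicator_of_mem hy]
      have hy' : |y| < Real.sin t * x / Real.cos t := abs_lt.mpr ⟨hy.1, hy.2⟩
      have hy2 : Real.cos t * |y| < Real.sin t * x := by
        rw [lt_div_iff₀ ct] at hy'
        linarith
      have hs : 0 < (R^2-x^2) - y^2 := by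
        have h5 : |y| < Real.sqrt (R^2-x^2) := hy'.trans hab
        have h6 : |y|^2 < Real.sqrt (R^2-x^2) ^ 2 := by
          apply pow_lt_pow_left₀ h5 (abs_nonneg _) (by norm_num)
        rw [sq_abs, Real.sq_sqrt hx2.le] at h6
        linarith
      rw [Real.sq_sqrt hx2.le]
      have hz := inner_z (Real.sqrt_pos.mpr hs)
      rw [Real.sq_sqrt hs.le] at hz
      rw [← hz, ← lintegral_indicator measurableSet_Ioi]
      congr 1
      funext z
      have hiff : (x, y, z) ∈ half3 R t ↔ z ∈ Ioi (Real.sqrt ((R^2-x^2) - y^2)) := by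
        simp only [half3, mem_ofPred_eq, mem_Ioi]
        constructor
        · rintro ⟨_, _, h7, h8⟩
          rw [Real.sqrt_lt' h7]
          linarith
        · intro h7
          have h8 : 0 < z := lt_of_le_of_lt (Real.sqrt_nonneg _) h7
          rw [Real.sqrt_lt' h8] at h7
          exact ⟨hx1, hy2, h8, by linarith⟩
      by_cases hm : (x, y, z) ∈ half3 R t
      · rw [indicator_of_mem hm, indicator_of_mem (hiff.mp hm)]
      · rw [indicator_of_notMem hm, indicator_of_notMem (fun h => hm (hiff.mpr h))]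
    · rw [indicator_of_notMem hy]
      have : ∀ z : ℝ, (half3 R t).indicator
          (fun p : ℝ × ℝ × ℝ => ENNReal.ofReal (1 / p.2.2^3)) (x, y, z) = 0 := by
        intro z
        apply indicator_of_notMem
        rintro ⟨_, h8, _, _⟩
        apply hy
        simp only at h8
        rw [mem_Ioo, ← abs_lt, lt_div_iff₀ ct]
        linarith
      simp only [this, lintegral_zero]
  · rw [indicator_of_notMem hx]
    have : ∀ y z : ℝ, (half3 R t).indicator
        (fun p : ℝ × ℝ × ℝ => ENNReal.ofReal (1 / p.2.2^3)) (x, y, z) = 0 := by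
      intro y z
      apply indicator_of_notMem
      rintro ⟨h7, h8, _, _⟩
      apply hx
      simp only at h7 h8
      refine ⟨?_, h7⟩
      have h9 : 0 ≤ Real.cos t * |y| := by positivity
      by_contra hc
      push Not at hc
      nlinarith
    simp only [this, lintegral_zero]

/-- ROW KITE: the volume over a kite -/
theorem hypVol_kite {r ρ : ℝ} (hr : 0 < r) (hρ : 0 < ρ) : hypVol (kite r ρ)
    = ENNReal.ofReal (lob (Real.arctan (ρ/r)) + lob (Real.pi/2 - Real.arctan (ρ/r))) := by
  have hpi := Real.pi_pos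
  set t := Real.arctan (ρ/r) with ht
  set c := Real.sqrt (r^2 + ρ^2) with hc
  have hc2 : c^2 = r^2 + ρ^2 := Real.sq_sqrt (by positivity)
  have hc0 : 0 < c := Real.sqrt_pos.2 (by positivity)
  have t0 : 0 < t := Real.arctan_pos.2 (div_pos hρ hr)
  have t1 : t < Real.pi/2 := Real.arctan_lt_pi_div_two _
  have hsq : Real.sqrt (1 + (ρ/r)^2) = c / r := by
    rw [show 1 + (ρ/r)^2 = (c/r)^2 by rw [div_pow, div_pow, hc2]; field_simp]
    exact Real.sqrt_sq (by positivity)
  have hcos : Real.cos t = r / c := by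
    rw [ht, Real.cos_arctan, hsq]; field_simp
  have hsin : Real.sin t = ρ / c := by
    rw [ht, Real.sin_arctan, hsq]; field_simp
  have hcos' : Real.cos (Real.pi/2 - t) = ρ / c := by rw [Real.cos_pi_div_two_sub, hsin]
  have hsin' : Real.sin (Real.pi/2 - t) = r / c := by rw [Real.sin_pi_div_two_sub, hcos]
  rw [ENNReal.ofReal_add (lob_nonneg' t0 t1) (lob_nonneg' (by linarith) (by linarith)),
    ← lintegral_Wh hr t0 t1, ← lintegral_Wh hρ (t := Real.pi/2 - t) (by linarith) (by linarith)]
  have hW : Measurable (Wh r t) := by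
    unfold Wh
    have : Measurable (fun p : ℝ × ℝ × ℝ => (half3 r t).indicator
        (fun p : ℝ × ℝ × ℝ => ENNReal.ofReal (1 / p.2.2^3)) p) := by
      apply Measurable.indicator _ (half3_meas r t)
      fun_prop
    have h2 : Measurable (fun q : (ℝ × ℝ) × ℝ => (half3 r t).indicator
        (fun p : ℝ × ℝ × ℝ => ENNReal.ofReal (1 / p.2.2^3)) (q.1.1, q.1.2, q.2)) :=
      this.comp (by fun_prop)
    exact h2.lintegral_prod_right'.lintegral_prod_right'
  rw [← lintegral_sub_left_eq_self (μ := volume) (Wh ρ (Real.pi/2 - t)) c, ← lintegral_add_left hW]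
  unfold hypVol
  rw [← lintegral_indicator (kite_meas r ρ), Measure.volume_eq_prod, lintegral_prod]
  swap
  · apply Measurable.aemeasurable
    apply Measurable.indicator _ (kite_meas r ρ)
    fun_prop
  refine lintegral_congr_ae ?_
  have hne : ∀ᵐ x : ℝ, x ≠ r^2/c := by
    rw [ae_iff]
    simp
  refine hne.mono fun x hx => ?_
  simp only
  rw [Measure.volume_eq_prod, lintegral_prod]
  swap
  · apply Measurable.aemeasurable
    have : Measurable ((kite r ρ).indicator (fun p : ℝ × ℝ × ℝ => ENNReal.ofReal (1 / p.2.2^3))) := by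
      apply Measurable.indicator _ (kite_meas r ρ)
      fun_prop
    exact this.comp measurable_prodMk_left
  have hx0 : r * Real.cos t = r^2/c := by rw [hcos]; ring
  have hx0' : ρ * Real.cos (Real.pi/2 - t) = ρ^2/c := by rw [hcos']; ring
  rcases lt_or_gt_of_ne hx with hlt | hgt
  · -- the side of the centre of `r`
    have hz : Wh ρ (Real.pi/2 - t) (c - x) = 0 := by
      have : ∀ y z : ℝ, (half3 ρ (Real.pi/2 - t)).indicator
          (fun p : ℝ × ℝ × ℝ => ENNReal.ofReal (1 / p.2.2^3)) (c - x, y, z) = 0 := by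
        intro y z
        apply indicator_of_notMem
        rintro ⟨h7, _⟩
        simp only [hx0'] at h7
        have : ρ^2/c = c - r^2/c := by field_simp; linarith
        linarith
      unfold Wh
      simp only [this, lintegral_zero]
    rw [hz, add_zero]
    unfold Wh
    refine lintegral_congr fun y => lintegral_congr fun z => ?_
    have hiff : (x, y, z) ∈ kite r ρ ↔ (x, y, z) ∈ half3 r t := by
      simp only [kite, half3, mem_ofPred_eq, hx0, ← hc]
      rw [hcos, hsin]
      have hxc : x * c < r^2 := by rwa [lt_div_iff₀ hc0] at hlt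
      constructor
      · rintro ⟨a1, _, a3, a4, _⟩
        refine ⟨hlt, ?_, a3, a4⟩
        rw [div_mul_eq_mul_div, div_mul_eq_mul_div]
        exact div_lt_div_of_pos_right a1 hc0
      · rintro ⟨_, a2, a3, a4⟩
        have a2' : r * |y| < ρ * x := by
          rw [div_mul_eq_mul_div, div_mul_eq_mul_div] at a2
          exact (div_lt_div_iff_of_pos_right hc0).1 a2
        refine ⟨a2', ?_, a3, a4, ?_⟩
        · have h1 : r * (ρ * |y|) < r * (r * (c - x)) := by
            have h2 : r * (ρ * |y|) < ρ^2 * x := by nlinarith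
            have h3 : c * (c * x) ≤ c * r^2 := by nlinarith
            have h4 : c * x * c = r^2 * x + ρ^2 * x := by
              rw [show c * x * c = c^2 * x by ring, hc2]; ring
            nlinarith
          exact lt_of_mul_lt_mul_left h1 hr.le
        · nlinarith
    by_cases hm : (x, y, z) ∈ kite r ρ
    · rw [indicator_of_mem hm, indicator_of_mem (hiff.mp hm)]
    · rw [indicator_of_notMem hm, indicator_of_notMem (fun h => hm (hiff.mpr h))]
  · -- the side of the centre of `ρ`
    have hz : Wh r t x = 0 := by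
      have : ∀ y z : ℝ, (half3 r t).indicator
          (fun p : ℝ × ℝ × ℝ => ENNReal.ofReal (1 / p.2.2^3)) (x, y, z) = 0 := by
        intro y z
        apply indicator_of_notMem
        rintro ⟨h7, _⟩
        simp only [hx0] at h7
        linarith
      unfold Wh
      simp only [this, lintegral_zero]
    rw [hz, zero_add]
    unfold Wh
    refine lintegral_congr fun y => lintegral_congr fun z => ?_
    have hiff : (x, y, z) ∈ kite r ρ ↔ (c - x, y, z) ∈ half3 ρ (Real.pi/2 - t) := by
      simp only [kite, half3, mem_ofPred_eq, hx0', ← hc]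
      rw [hcos', hsin']
      have hxc : r^2 < x * c := by rwa [div_lt_iff₀ hc0] at hgt
      have hxc' : (c - x) * c < ρ^2 := by nlinarith
      constructor
      · rintro ⟨_, a2, a3, _, a5⟩
        refine ⟨by rw [lt_div_iff₀ hc0]; exact hxc', ?_, a3, by nlinarith⟩
        rw [div_mul_eq_mul_div, div_mul_eq_mul_div]
        exact div_lt_div_of_pos_right a2 hc0
      · rintro ⟨_, a2, a3, a4⟩
        have a2' : ρ * |y| < r * (c - x) := by
          rw [div_mul_eq_mul_div, div_mul_eq_mul_div] at a2
          exact (div_lt_div_iff_of_pos_right hc0).1 a2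
        refine ⟨?_, a2', a3, by nlinarith, by nlinarith⟩
        have h1 : ρ * (r * |y|) < ρ * (ρ * x) := by
          have h2 : ρ * (r * |y|) < r^2 * (c - x) := by nlinarith
          have h3 : c * ((c - x) * c) ≤ c * ρ^2 := by nlinarith
          have h4 : c * (c - x) * c = r^2 * (c - x) + ρ^2 * (c - x) := by
            rw [show c * (c - x) * c = c^2 * (c - x) by ring, hc2]; ring
          nlinarith
        exact lt_of_mul_lt_mul_left h1 hρ.le
    by_cases hm : (x, y, z) ∈ kite r ρ
    · rw [indicator_of_mem hm, indicator_of_mem (hiff.mp hm)]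
    · rw [indicator_of_notMem hm, indicator_of_notMem (fun h => hm (hiff.mpr h))]

end ANG
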